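import Pool.Agent.H.MP_cbf971_pr.A

/-! The probability of converging to the upper stable fixed point need not be monotone in the initial condition. -/

open MeasureTheory ProbabilityTheory Set Filter Topology
open scoped ENNReal

namespace Pool.Agent.Results.MP_cbf971_pr.NotMono

/-- jump times: the next point comes when the integrated intensity reaches the next exponential variable -/
noncomputable def J (lam : ℝ → ℝ) (γ : ℝ) (E : ℕ → ℝ) : ℕ → ℝ≥0∞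
  | 0 => 0
  | k + 1 => sInf {t | J lam γ E k ≤ t ∧ ENNReal.ofReal (E k) ≤
      ∫⁻ s in {s : ℝ | J lam γ E k < ENNReal.ofReal s ∧ ENNReal.ofReal s ≤ t}, ENNReal.ofReal (lam ((k + γ) / (s + 1)))}

/-- probability of no explosion and `N t / t → x` -/
noncomputable def p (lam : ℝ → ℝ) (x γ : ℝ) : ℝ≥0∞ :=
  Measure.infinitePi (fun _ : ℕ => expMeasure 1) {E | (∀ t, {k | J lam γ E (k + 1) ≤ ENNReal.ofReal t}.Finite) ∧
    Tendsto (fun t => ({k | J lam γ E (k + 1) ≤ ENNReal.ofReal t}.ncard : ℝ) / t) atTop (𝓝 x)}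

/-- stable fixed point -/
def Stable (lam : ℝ → ℝ) (x : ℝ) : Prop :=
  lam x = x ∧ (∀ᶠ y in 𝓝[<] x, 0 ≤ y → y < lam y) ∧ ∀ᶠ y in 𝓝[>] x, lam y < y

lemma br (lam : ℝ → ℝ) (γ : ℝ) (E : ℕ → ℝ) (k : ℕ) : J lam γ E k = Pool.Agent.H.MP_cbf971_pr.J lam γ E k := by
  induction k with
  | zero => rfl
  | succ k ih => rw [J, ih]; rfl

theorem result : ∃ (lam : ℝ → ℝ) (x₁ x₂ : ℝ), ContinuousOn lam (Ici 0) ∧ (∃ C, ∀ x ≥ 0, lam x ∈ Icc 0 C) ∧
    {x | 0 ≤ x ∧ lam x = x}.Finite ∧ x₁ < x₂ ∧ {x | 0 ≤ x ∧ Stable lam x} = {x₁, x₂} ∧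
    ¬ MonotoneOn (p lam x₂) (Ici 0) ∧ ¬ AntitoneOn (p lam x₂) (Ici 0) := by
  have h : p = Pool.Agent.H.MP_cbf971_pr.p := by
    funext lam x γ
    simp only [p, br]
    rfl
  rw [h]
  exact Pool.Agent.H.MP_cbf971_pr.main

end Pool.Agent.Results.MP_cbf971_pr.NotMono
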